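import Pool.Agent.Helper72.PairSumDefs
import Pool.Agent.Helper72.PairSumFinal

open Pool.Agent.Helper72.PairSum

/-- Ramsey's theorem for differences is not Weihrauch reducible to Hindman's theorem for exact
pair sums, not even by continuous functionals. -/
theorem Pool.Agent.Results.MP_98861b_lc.NotWeihrauch.result :
    ¬ ReducesVia FiniteUse SolSubt SolHT ∧ ¬ ReducesVia TuringFunctional SolSubt SolHT :=
  ⟨not_reducesVia_finiteUse, fun h =>
    not_reducesVia_finiteUse (h.mono fun _ hΓ => hΓ.finiteUse)⟩
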